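import Pool.Agent.helper76.MinRamsey.LowerB

set_option autoImplicit false

namespace Pool.Agent.Results.MP_624632_co.UpToConstant

open Pool.Agent.MinRamsey Filter Topology

/-- **The smallest Ramsey numbers up to an additive constant.** For `n ≥ 2` let
`f(n) = minRamsey n` be the minimum of the Ramsey numbers `r(G)` over the graphs `G` with exactly
`n` vertices and no isolated vertex. Then
`n + log₂ n - log₂ log₂ n - 2 ≤ f(n) ≤ n + log₂ n - log₂ log₂ n + 11` and
`f(n) ≤ n + log₂ n + 3` for all `n ≥ 2`, and `(f(n) - n) / log₂ n → 1`. -/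
theorem result :
    (∀ n : ℕ, 2 ≤ n →
      (n : ℝ) + Real.logb 2 n - Real.logb 2 (Real.logb 2 n) - 2 ≤ minRamsey n ∧
      (minRamsey n : ℝ) ≤ n + Real.logb 2 n - Real.logb 2 (Real.logb 2 n) + 11 ∧
      (minRamsey n : ℝ) ≤ n + Real.logb 2 n + 3) ∧
    Tendsto (fun n : ℕ => ((minRamsey n : ℝ) - n) / Real.logb 2 n) atTop (𝓝 1) :=
  ⟨fun n hn => ⟨lower_real' n hn, upper_real' n hn, upper_real n hn⟩, tendsto_ratio⟩

end Pool.Agent.Results.MP_624632_co.UpToConstant
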